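import Mathlib
import Pool.Agent.W237.RK.Defs
import Pool.Agent.H58B.Low

set_option autoImplicit false
set_option linter.unusedVariables false

/-!
# The height inequality (RK-HT)
-/

namespace Pool.Agent.W848.RK

open NumberField Height Module
open Pool.Agent.W237.RK
open Pool.Agent.Helper259.AbsHt
open Pool.Agent.H58P (Qb ht qb_isIntegral)

/-- a lower bound for the height of a vector from local conditions, with any `R > 0` -/
theorem height_geR {ι : Type*} [Finite ι] [Nonempty ι] (x : ι → Qb) (R : ℝ) (hR : 0 < R)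
    (hV : ∀ V : ValuationSubring Qb, ∃ i, 1 ≤ V.valuation (x i))
    (hφ : ∀ φ : Qb →+* ℂ, ∃ i, R ≤ ‖φ (x i)‖) : Real.log R ≤ absLogHeight x := by
  obtain ⟨L, hL, hmem⟩ := exists_nf (Set.range x) (Set.finite_range x)
  obtain ⟨y, rfl⟩ := lift_vec L x fun i => hmem _ ⟨i, rfl⟩
  rw [val_eq, le_div_iff₀ (finrank_pos' L), logHeight_eq_log_mulHeight]
  have hy : y ≠ 0 := by
    rintro rfl
    obtain ⟨V⟩ : Nonempty (ValuationSubring Qb) := inferInstance
    obtain ⟨i, hi⟩ := hV V
    simp at hi
  have hbdd : ∀ v : L → ℝ, BddAbove (Set.range fun i => v (y i)) := fun v =>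
    (Set.finite_range _).bddAbove
  have h1 : R ^ finrank ℚ L ≤ ∏ v : InfinitePlace L, (⨆ i, v (y i)) ^ v.mult := by
    rw [← InfinitePlace.sum_mult_eq (K := L), ← Finset.prod_pow_eq_pow_sum]
    apply Finset.prod_le_prod
    · intro v _
      positivity
    · intro v _
      apply pow_le_pow_left₀ hR.le
      -- extend the embedding
      let _ : Algebra L ℂ := v.embedding.toAlgebra
      have halg : Algebra.IsAlgebraic L Qb := ⟨fun z =>
        ((qb_isIntegral z).tower_top (A := L)).isAlgebraic⟩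
      let ψ : Qb →ₐ[L] ℂ := IsAlgClosed.lift
      obtain ⟨i, hi⟩ := hφ (ψ : Qb →+* ℂ)
      have h2 : v (y i) = ‖(ψ : Qb →+* ℂ) (y i : Qb)‖ := by
        have h3 : (ψ : Qb →+* ℂ) (y i : Qb) = v.embedding (y i) := ψ.commutes (y i)
        rw [h3, InfinitePlace.norm_embedding_eq]
      rw [← h2] at hi
      exact hi.trans (le_ciSup (hbdd v) i)
  have h2 : (1 : ℝ) ≤ ∏ᶠ v : FinitePlace L, ⨆ i, v (y i) := by
    apply one_le_finprod
    intro v
    obtain ⟨V, hVv⟩ := Pool.Agent.H58B.exists_valuationSubring L v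
    obtain ⟨i, hi⟩ := hV V
    have h3 : 1 ≤ v (y i) := by
      by_contra hcon
      exact absurd (hVv (y i) (not_le.mp hcon)) (not_lt.mpr hi)
    exact h3.trans (le_ciSup (hbdd v) i)
  rw [NumberField.mulHeight_eq hy, mul_comm (Real.log R), ← Real.log_pow]
  apply Real.log_le_log (by positivity)
  have h3 : (0 : ℝ) < R ^ finrank ℚ L := by positivity
  calc R ^ finrank ℚ L = R ^ finrank ℚ L * 1 := (mul_one _).symm
    _ ≤ _ := mul_le_mul h1 h2 zero_le_one (h3.le.trans h1)

/-- the height of a product family -/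
theorem absLogHeight_prodfam {α β : Type*} [Fintype α] [Finite β] (x : α → β → Qb)
    (hx : ∀ a, x a ≠ 0) :
    absLogHeight (fun I : α → β => ∏ a, x a (I a)) = ∑ a, absLogHeight (x a) := by
  classical
  obtain ⟨L, hL, hmem⟩ := exists_nf (Set.range fun q : α × β => x q.1 q.2) (Set.finite_range _)
  obtain ⟨y, hy⟩ : ∃ y : α → β → L, x = fun a b => ((y a b : L) : Qb) :=
    ⟨fun a b => ⟨x a b, hmem _ ⟨(a, b), rfl⟩⟩, rfl⟩
  subst hy
  have hy0 : ∀ a, y a ≠ 0 := by
    intro a h
    apply hx a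
    funext b
    simp [h]
  have e : (fun I : α → β => ∏ a, ((y a (I a) : L) : Qb)) =
      fun I => (((fun I : α → β => ∏ a, y a (I a)) I : L) : Qb) := by
    funext I
    push_cast
    rfl
  have e2 : ∀ a, absLogHeight (fun b => ((y a b : L) : Qb)) = logHeight (y a) / finrank ℚ L :=
    fun a => val_eq L (y a)
  simp only [e2]
  rw [e, val_eq, logHeight_fun_prod_eq hy0, Finset.sum_div]

theorem absLogHeight_powfam {ι : Type*} [Finite ι] (x : ι → Qb) (n : ℕ) :
    absLogHeight (fun i => x i ^ n) = n * absLogHeight x := by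
  obtain ⟨L, hL, hmem⟩ := exists_nf (Set.range x) (Set.finite_range x)
  obtain ⟨y, rfl⟩ := lift_vec L x fun i => hmem _ ⟨i, rfl⟩
  have e : (fun i => (y i : Qb) ^ n) = fun i => (((y ^ n) i : L) : Qb) := by
    funext i
    simp
  rw [e, val_eq, val_eq, logHeight_pow]
  ring

/-- heights are invariant under the endomorphisms of a subfield -/
lemma ht_conjM (M : GF) [NumberField M] (τ : M →+* M) (x : M) :
    ht ((τ x : M) : Qb) = ht (x : Qb) := by
  have h1 := absLogHeight_eq M (algebraMap M Qb) ![1, x]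
  have h2 := absLogHeight_eq M ((algebraMap M Qb).comp τ) ![1, x]
  have e1 : (fun i => algebraMap M Qb ((![1, x] : Fin 2 → M) i)) = ![1, (x : Qb)] := by
    funext i
    fin_cases i
    · simp
    · simp
  have e2 : (fun i => ((algebraMap M Qb).comp τ) ((![1, x] : Fin 2 → M) i))
      = ![1, ((τ x : M) : Qb)] := by
    funext i
    fin_cases i
    · simp
    · simp
  rw [e1] at h1
  rw [e2] at h2
  show absLogHeight ![1, ((τ x : M) : Qb)] = absLogHeight ![1, (x : Qb)]
  rw [h1, h2]

/-- the choice between `1` and `a`, for a function with values in a linear order -/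
lemma exists_choice {K Γ : Type*} [LinearOrder Γ] [One Γ] (N : K → Γ) (one a : K) (h1 : N one = 1) :
    ∃ i : Fin 2, N ((![one, a] : Fin 2 → K) i) = max 1 (N a) := by
  rcases le_total 1 (N a) with h | h
  · exact ⟨1, by simp [max_eq_right h]⟩
  · exact ⟨0, by simp [max_eq_left h, h1]⟩

section core

variable {G : Type*} [Fintype G] {d : ℕ} (U V : G → Fin d → Qb)

/-- the product of the differences -/
noncomputable def N0 : Qb := ∏ q : G × Fin d, (U q.1 q.2 - V q.1 q.2)

/-- the vector of products -/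
noncomputable def wv (f : G × Fin d → Fin 2 × Fin 2) : Qb := ∏ q : G × Fin d,
    ((![1, U q.1 q.2] : Fin 2 → Qb) (f q).1 * (![1, V q.1 q.2] : Fin 2 → Qb) (f q).2)

/-- at every multiplicative function there is a largest coordinate -/
lemma exists_max {Γ : Type*} [LinearOrder Γ] [CommMonoidWithZero Γ] (N : Qb → Γ)
    (h1 : N 1 = 1) (hmul : ∀ a b, N (a * b) = N a * N b) :
    ∃ f : G × Fin d → Fin 2 × Fin 2, N (wv U V f) =
      ∏ q : G × Fin d, (max 1 (N (U q.1 q.2)) * max 1 (N (V q.1 q.2))) := by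
  choose f hf using fun q : G × Fin d => exists_choice N 1 (U q.1 q.2) h1
  choose f' hf' using fun q : G × Fin d => exists_choice N 1 (V q.1 q.2) h1
  refine ⟨fun q => (f q, f' q), ?_⟩
  have hprod : ∀ (s : Finset (G × Fin d)) (g : G × Fin d → Qb), N (∏ q ∈ s, g q) =
      ∏ q ∈ s, N (g q) := by
    classical
    intro s g
    induction s using Finset.induction_on with
    | empty => simpa using h1
    | insert a s ha ih => rw [Finset.prod_insert ha, Finset.prod_insert ha, hmul, ih]
  rw [wv, hprod]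
  refine Finset.prod_congr rfl fun q _ => ?_
  rw [hmul, hf, hf']

lemma N0_ne (hne : ∀ g s, U g s ≠ V g s) : N0 U V ≠ 0 := by
  rw [N0, Finset.prod_ne_zero_iff]
  rintro ⟨τ, s⟩ _ h
  exact hne τ s (sub_eq_zero.mp h)

lemma ht_wv : absLogHeight (wv U V) = ∑ q : G × Fin d, (ht (U q.1 q.2) + ht (V q.1 q.2)) := by
  have h1 := absLogHeight_prodfam (fun (q : G × Fin d) (a : Fin 2 × Fin 2) =>
    (![1, U q.1 q.2] : Fin 2 → Qb) a.1 * (![1, V q.1 q.2] : Fin 2 → Qb) a.2) (by
      intro q h
      have := congrFun h (0, 0)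
      simp at this)
  have h2 : absLogHeight (wv U V) = ∑ q : G × Fin d, absLogHeight (fun (a : Fin 2 × Fin 2) =>
    (![1, U q.1 q.2] : Fin 2 → Qb) a.1 * (![1, V q.1 q.2] : Fin 2 → Qb) a.2) := h1
  rw [h2]
  exact Finset.sum_congr rfl fun q _ => Pool.Agent.H58B.absLogHeight_four _ _

theorem core (p : ℕ) [hp : Fact p.Prime] (φ : Qb →+* PadicAlgCl p) (M : GF)
    (hU : ∀ g s, U g s ∈ M) (hV : ∀ g s, V g s ∈ M) (hne : ∀ g s, U g s ≠ V g s)
    (hcj : ∀ W : ValuationSubring Qb, W.valuation (p : Qb) < 1 → ∃ (π : G ≃ G) (ρ : Aut),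
      (∀ g s, ρ (U g s) = U (π g) s) ∧ (∀ g s, ρ (V g s) = V (π g) s) ∧
      ∀ x ∈ M, (x ∈ W ↔ ‖φ (ρ x)‖ ≤ 1))
    (T : Finset G) (δ : ℝ) (hδ0 : 0 < δ) (hδ1 : δ ≤ 1)
    (hT : ∀ g ∈ T, ∏ s, ‖φ (U g s - V g s)‖ ≤ δ * ∏ s, (max 1 ‖φ (U g s)‖ * max 1 ‖φ (V g s)‖)) :
    (T.card : ℝ) * -Real.log δ ≤
      ∑ q : G × Fin d, (ht (U q.1 q.2) + ht (V q.1 q.2) + Real.log 2) := by
  classical
  have hpp : p.Prime := hp.out
  have hp0 : (0 : ℝ) < p := by exact_mod_cast hpp.pos
  have hp1 : (1 : ℝ) < p := by exact_mod_cast hpp.one_lt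
  have hlogp : 0 < Real.log p := Real.log_pos hp1
  have hlogδ : 0 ≤ -Real.log δ := by
    have := Real.log_nonpos hδ0.le hδ1
    linarith
  have hN0 := N0_ne U V hne
  have hw := ht_wv U V
  set H : ℝ := ∑ q : G × Fin d, (ht (U q.1 q.2) + ht (V q.1 q.2)) with hH
  have hH2 : ∑ q : G × Fin d, (ht (U q.1 q.2) + ht (V q.1 q.2) + Real.log 2) =
      H + (Fintype.card (G × Fin d)) * Real.log 2 := by
    rw [Finset.sum_add_distrib, hH]
    simp
  rw [hH2]
  set D : ℕ := Fintype.card (G × Fin d) with hD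
  -- local inequality at `φ`
  have hloc : ‖φ (N0 U V)‖ ≤ δ ^ T.card *
      ∏ q : G × Fin d, (max 1 ‖φ (U q.1 q.2)‖ * max 1 ‖φ (V q.1 q.2)‖) := by
    have hg : ∀ g : G, ∏ s, ‖φ (U g s - V g s)‖ ≤ (if g ∈ T then δ else 1) *
        ∏ s, (max 1 ‖φ (U g s)‖ * max 1 ‖φ (V g s)‖) := by
      intro g
      by_cases h : g ∈ T
      · rw [if_pos h]
        exact hT g h
      · rw [if_neg h, one_mul]
        apply Finset.prod_le_prod
        · intro s _
          exact norm_nonneg _
        · intro s _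
          rw [map_sub]
          have h1 : ‖φ (U g s) - φ (V g s)‖ ≤ max ‖φ (U g s)‖ ‖φ (V g s)‖ :=
            by
              have := PadicAlgCl.isNonarchimedean p (φ (U g s)) (-φ (V g s))
              rwa [norm_neg, ← sub_eq_add_neg] at this
          have h2 := le_max_left 1 ‖φ (U g s)‖
          have h3 := le_max_right 1 ‖φ (U g s)‖
          have h4 := le_max_left 1 ‖φ (V g s)‖
          have h5 := le_max_right 1 ‖φ (V g s)‖
          refine h1.trans (max_le ?_ ?_)
          · nlinarith [norm_nonneg (φ (U g s))]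
          · nlinarith [norm_nonneg (φ (V g s))]
    rw [N0, map_prod, norm_prod, Fintype.prod_prod_type, Fintype.prod_prod_type]
    calc ∏ g, ∏ s, ‖φ (U g s - V g s)‖
        ≤ ∏ g : G, ((if g ∈ T then δ else 1) *
          ∏ s, (max 1 ‖φ (U g s)‖ * max 1 ‖φ (V g s)‖)) :=
          Finset.prod_le_prod (fun g _ => Finset.prod_nonneg fun s _ => norm_nonneg _)
            fun g _ => hg g
      _ = _ := by
          rw [Finset.prod_mul_distrib]
          congr 1
          rw [Finset.prod_ite]
          simp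
  -- main inequality
  have key : ∀ r : ℕ, (r : ℝ) * ((T.card : ℝ) * -Real.log δ) - Real.log p ≤
      (r : ℝ) * (H + D * Real.log 2) := by
    intro r
    set b : ℕ := ⌊((r : ℝ) * ((T.card : ℝ) * -Real.log δ)) / Real.log p⌋₊ with hb
    have hb1 : (b : ℝ) * Real.log p ≤ (r : ℝ) * ((T.card : ℝ) * -Real.log δ) := by
      rw [← le_div_iff₀ hlogp]
      exact Nat.floor_le (by positivity)
    have hb2 : (r : ℝ) * ((T.card : ℝ) * -Real.log δ) < (b + 1 : ℝ) * Real.log p := by
      rw [← div_lt_iff₀ hlogp]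
      exact Nat.lt_floor_add_one _
    let c : Qb := (p : Qb) ^ b * (N0 U V ^ r)⁻¹
    have hpQ : (p : Qb) ≠ 0 := by exact_mod_cast hpp.ne_zero
    have hc : c ≠ 0 := mul_ne_zero (pow_ne_zero _ hpQ) (inv_ne_zero (pow_ne_zero _ hN0))
    have hx : absLogHeight (c • fun f => wv U V f ^ r) = r * H := by
      rw [absLogHeight_smul _ hc, absLogHeight_powfam, hw]
    have hle : Real.log ((p : ℝ) ^ b / (2 ^ D) ^ r) ≤
        absLogHeight (c • fun f => wv U V f ^ r) := by
      apply height_geR
      · positivity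
      · intro W
        have hpW : W.valuation (p : Qb) ≤ 1 := by
          rw [ValuationSubring.valuation_le_one_iff]
          exact natCast_mem W p
        rcases lt_or_eq_of_le hpW with h | h
        · obtain ⟨π, ρ, hρU, hρV, hρ⟩ := hcj W h
          obtain ⟨f, hf⟩ := exists_max U V (fun x => ‖φ (ρ x)‖) (by simp) (by simp)
          have hf1 : ‖φ (ρ (wv U V f))‖ =
              ∏ q : G × Fin d, (max 1 ‖φ (U q.1 q.2)‖ * max 1 ‖φ (V q.1 q.2)‖) := by
            have h1 : ‖φ (ρ (wv U V f))‖ = ∏ q : G × Fin d,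
              (max 1 ‖φ (ρ (U q.1 q.2))‖ * max 1 ‖φ (ρ (V q.1 q.2))‖) := hf
            rw [h1]
            simp only [hρU, hρV]
            exact Equiv.prod_comp (π.prodCongr (Equiv.refl (Fin d)))
              (fun q : G × Fin d => (max 1 ‖φ (U q.1 q.2)‖ * max 1 ‖φ (V q.1 q.2)‖))
          have hN1 : ρ (N0 U V) = N0 U V := by
            rw [N0, map_prod]
            simp only [map_sub, hρU, hρV]
            exact Equiv.prod_comp (π.prodCongr (Equiv.refl (Fin d)))
              (fun q : G × Fin d => (U q.1 q.2 - V q.1 q.2))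
          refine ⟨f, ?_⟩
          -- the element and its norm
          have hP1 : (1 : ℝ) ≤ ∏ q : G × Fin d,
              (max 1 ‖φ (U q.1 q.2)‖ * max 1 ‖φ (V q.1 q.2)‖) := by
            refine Finset.prod_induction _ (fun x : ℝ => 1 ≤ x) ?_ le_rfl ?_
            · intro a b ha hb
              exact one_le_mul_of_one_le_of_one_le ha hb
            · intro q _
              exact one_le_mul_of_one_le_of_one_le (le_max_left _ _) (le_max_left _ _)
          have hwf0 : wv U V f ≠ 0 := by
            intro h0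
            rw [h0, map_zero, map_zero, norm_zero] at hf1
            rw [← hf1] at hP1
            linarith
          have hx0 : c * wv U V f ^ r ≠ 0 := mul_ne_zero hc (pow_ne_zero _ hwf0)
          have hxM : (c * wv U V f ^ r)⁻¹ ∈ M := by
            have h1 : N0 U V ∈ M := prod_mem fun q _ => sub_mem (hU _ _) (hV _ _)
            have h2 : wv U V f ∈ M := by
              refine prod_mem fun q _ => mul_mem ?_ ?_
              · generalize (f q).1 = j
                fin_cases j
                · simp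
                · simpa using hU q.1 q.2
              · generalize (f q).2 = j
                fin_cases j
                · simp
                · simpa using hV q.1 q.2
            exact inv_mem (mul_mem (mul_mem (pow_mem (natCast_mem _ _) _)
              (inv_mem (pow_mem h1 _))) (pow_mem h2 _))
          have hnorm : 1 ≤ ‖φ (ρ (c * wv U V f ^ r))‖ := by
            have e1 : ‖φ (ρ (c * wv U V f ^ r))‖ = ((p : ℝ)⁻¹) ^ b * (‖φ (N0 U V)‖ ^ r)⁻¹ *
                ‖φ (ρ (wv U V f))‖ ^ r := by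
              have hp' : ‖φ (ρ (p : Qb))‖ = (p : ℝ)⁻¹ := by
                rw [map_natCast, map_natCast]
                have h2 := PadicAlgCl.norm_extends p (p : ℚ_[p])
                rw [Padic.norm_p] at h2
                rw [← h2]
                congr 1
              rw [show c = (p : Qb) ^ b * (N0 U V ^ r)⁻¹ from rfl]
              simp only [map_mul, map_pow, map_inv₀, norm_mul, norm_pow, norm_inv, hN1, hp']
            have hX : 0 < ‖φ (N0 U V)‖ := norm_pos_iff.mpr ((map_ne_zero φ).mpr hN0)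
            rw [e1, hf1]
            set P : ℝ := ∏ q : G × Fin d, (max 1 ‖φ (U q.1 q.2)‖ * max 1 ‖φ (V q.1 q.2)‖)
            have hP0 : 0 < P := by linarith
            have hXr : ‖φ (N0 U V)‖ ^ r ≤ (δ ^ T.card) ^ r * P ^ r := by
              rw [← mul_pow]
              exact pow_le_pow_left₀ hX.le hloc r
            have hpb : (p : ℝ) ^ b * (δ ^ T.card) ^ r ≤ 1 := by
              rw [← Real.log_nonpos_iff (by positivity),
                Real.log_mul (by positivity) (by positivity), Real.log_pow, Real.log_pow,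
                Real.log_pow]
              nlinarith
            have h5 : (p : ℝ) ^ b * ‖φ (N0 U V)‖ ^ r ≤ P ^ r := by
              calc (p : ℝ) ^ b * ‖φ (N0 U V)‖ ^ r ≤ (p : ℝ) ^ b * ((δ ^ T.card) ^ r * P ^ r) := by
                    gcongr
                _ = ((p : ℝ) ^ b * (δ ^ T.card) ^ r) * P ^ r := by ring
                _ ≤ 1 * P ^ r := by gcongr
                _ = P ^ r := one_mul _
            rw [inv_pow, ← mul_inv, ← div_eq_inv_mul, one_le_div (by positivity)]
            exact h5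
          have h1 : (c * wv U V f ^ r)⁻¹ ∈ W := by
            rw [hρ _ hxM, map_inv₀, map_inv₀, norm_inv]
            exact inv_le_one_of_one_le₀ hnorm
          rw [← ValuationSubring.valuation_le_one_iff, map_inv₀] at h1
          show 1 ≤ W.valuation (c * wv U V f ^ r)
          exact (inv_le_one₀ (zero_lt_iff.mpr ((Valuation.ne_zero_iff _).mpr hx0))).mp h1
        · obtain ⟨f, hf⟩ := exists_max U V (fun x => W.valuation x) (by simp) (by simp)
          refine ⟨f, ?_⟩
          have hN : W.valuation (N0 U V) ≤ W.valuation (wv U V f) := by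
            rw [hf, N0, map_prod]
            apply Finset.prod_le_prod'
            intro q _
            refine (Valuation.map_sub _ _ _).trans (max_le ?_ ?_)
            · calc W.valuation (U q.1 q.2) ≤ max 1 (W.valuation (U q.1 q.2)) := le_max_right _ _
                _ = max 1 (W.valuation (U q.1 q.2)) * 1 := (mul_one _).symm
                _ ≤ _ := mul_le_mul' le_rfl (le_max_left _ _)
            · calc W.valuation (V q.1 q.2) ≤ max 1 (W.valuation (V q.1 q.2)) := le_max_right _ _
                _ = 1 * max 1 (W.valuation (V q.1 q.2)) := (one_mul _).symm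
                _ ≤ _ := mul_le_mul' (le_max_left _ _) le_rfl
          have hN' : W.valuation (N0 U V) ≠ 0 := (Valuation.ne_zero_iff _).mpr hN0
          show 1 ≤ W.valuation ((p : Qb) ^ b * (N0 U V ^ r)⁻¹ * wv U V f ^ r)
          rw [map_mul, map_mul, map_pow, map_inv₀, map_pow, map_pow, h, one_pow, one_mul,
            ← inv_mul_cancel₀ (pow_ne_zero r hN')]
          exact mul_le_mul' le_rfl (pow_le_pow_left' hN r)
      · intro ψ
        obtain ⟨f, hf⟩ := exists_max U V (fun x => ‖ψ x‖) (by simp) (by simp)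
        refine ⟨f, ?_⟩
        have hN : ‖ψ (N0 U V)‖ ≤ 2 ^ D * ‖ψ (wv U V f)‖ := by
          have hf' : ‖ψ (wv U V f)‖ = ∏ q : G × Fin d,
              (max 1 ‖ψ (U q.1 q.2)‖ * max 1 ‖ψ (V q.1 q.2)‖) := hf
          rw [hf', N0, map_prod, norm_prod, hD, ← Finset.card_univ, ← Finset.prod_const,
            ← Finset.prod_mul_distrib]
          apply Finset.prod_le_prod
          · intro q _
            exact norm_nonneg _
          · intro q _
            rw [map_sub]
            have h1 := norm_sub_le (ψ (U q.1 q.2)) (ψ (V q.1 q.2))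
            have h2 := le_max_left 1 ‖ψ (U q.1 q.2)‖
            have h3 := le_max_right 1 ‖ψ (U q.1 q.2)‖
            have h4 := le_max_left 1 ‖ψ (V q.1 q.2)‖
            have h5 := le_max_right 1 ‖ψ (V q.1 q.2)‖
            have h6 : ‖ψ (U q.1 q.2)‖ ≤ max 1 ‖ψ (U q.1 q.2)‖ * max 1 ‖ψ (V q.1 q.2)‖ := by
              nlinarith [norm_nonneg (ψ (U q.1 q.2))]
            have h7 : ‖ψ (V q.1 q.2)‖ ≤ max 1 ‖ψ (U q.1 q.2)‖ * max 1 ‖ψ (V q.1 q.2)‖ := by
              nlinarith [norm_nonneg (ψ (V q.1 q.2))]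
            linarith
        have hX : 0 < ‖ψ (N0 U V)‖ := norm_pos_iff.mpr ((map_ne_zero ψ).mpr hN0)
        show (p : ℝ) ^ b / (2 ^ D) ^ r ≤ ‖ψ ((p : Qb) ^ b * (N0 U V ^ r)⁻¹ * wv U V f ^ r)‖
        have e1 : ‖ψ ((p : Qb) ^ b * (N0 U V ^ r)⁻¹ * wv U V f ^ r)‖ =
            (p : ℝ) ^ b * (‖ψ (N0 U V)‖ ^ r)⁻¹ * ‖ψ (wv U V f)‖ ^ r := by
          simp only [map_mul, map_pow, map_inv₀, norm_mul, norm_pow, norm_inv, map_natCast,
            Complex.norm_natCast]
        rw [e1]
        have hXr : ‖ψ (N0 U V)‖ ^ r ≤ (2 ^ D) ^ r * ‖ψ (wv U V f)‖ ^ r := by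
          rw [← mul_pow]
          exact pow_le_pow_left₀ hX.le hN r
        rw [div_le_iff₀ (by positivity)]
        calc (p : ℝ) ^ b = (p : ℝ) ^ b * ((‖ψ (N0 U V)‖ ^ r)⁻¹ * ‖ψ (N0 U V)‖ ^ r) := by
              rw [inv_mul_cancel₀ (by positivity), mul_one]
          _ ≤ (p : ℝ) ^ b * ((‖ψ (N0 U V)‖ ^ r)⁻¹ * ((2 ^ D) ^ r * ‖ψ (wv U V f)‖ ^ r)) := by
              gcongr
          _ = _ := by ring
    rw [hx, Real.log_div (by positivity) (by positivity), Real.log_pow, Real.log_pow,
      Real.log_pow] at hle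
    push_cast at hle
    nlinarith
  by_contra hcon
  push Not at hcon
  set A := (T.card : ℝ) * -Real.log δ
  set B := H + D * Real.log 2
  obtain ⟨r, hr⟩ := exists_nat_gt (Real.log p / (A - B))
  have h1 := key r
  rw [div_lt_iff₀ (by linarith)] at hr
  nlinarith

end core

/-- the height inequality (RK-HT) -/
theorem ht (hC : S_CONJ) : S_HT := by
  classical
  intro p hp φ M hM hst d u v huv T δ hδ0 hδ1 hT
  have hnf : NumberField M := { to_charZero := inferInstance, to_finiteDimensional := hM }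
  -- the embeddings
  let ι : (M ≃ₐ[ℚ] M) → (M →+* Qb) := fun τ => (algebraMap M Qb).comp (τ : M →+* M)
  have hι : Function.Injective ι := by
    intro τ τ' h
    ext x
    exact congrArg (fun g : M →+* Qb => g x) h
  have hfin : Finite (M ≃ₐ[ℚ] M) := Finite.of_injective ι hι
  have hft : Fintype (M ≃ₐ[ℚ] M) := Fintype.ofFinite _
  have hcard : (Fintype.card (M ≃ₐ[ℚ] M) : ℝ) ≤ Module.finrank ℚ M := by
    have h1 := Fintype.card_le_of_injective ι hι
    have h2 := NumberField.Embeddings.card M Qb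
    rw [h2] at h1
    have h3 : Fintype.card (M ≃ₐ[ℚ] M) ≤ Module.finrank ℚ M := by
      convert h1
    exact_mod_cast h3
  have key := core (G := M ≃ₐ[ℚ] M) (fun τ s => ((τ (u s) : M) : Qb))
    (fun τ s => ((τ (v s) : M) : Qb)) p φ M (fun g s => (g (u s)).2) (fun g s => (g (v s)).2)
    (fun g s h => huv s (g.injective (Subtype.ext h))) ?_ T δ hδ0 hδ1 hT
  · refine key.trans ?_
    have h1 : ∀ q : (M ≃ₐ[ℚ] M) × Fin d, Pool.Agent.H58P.ht ((q.1 (u q.2) : M) : Qb) +
        Pool.Agent.H58P.ht ((q.1 (v q.2) : M) : Qb) + Real.log 2 =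
        Pool.Agent.H58P.ht (u q.2 : Qb) + Pool.Agent.H58P.ht (v q.2 : Qb) + Real.log 2 := by
      intro q
      have h2 := ht_conjM M (q.1 : M →+* M) (u q.2)
      have h3 := ht_conjM M (q.1 : M →+* M) (v q.2)
      have h2' : Pool.Agent.H58P.ht ((q.1 (u q.2) : M) : Qb) = Pool.Agent.H58P.ht (u q.2 : Qb) := h2
      have h3' : Pool.Agent.H58P.ht ((q.1 (v q.2) : M) : Qb) = Pool.Agent.H58P.ht (v q.2 : Qb) := h3
      rw [h2', h3']
    simp only [h1]
    rw [Fintype.sum_prod_type]
    simp only [Finset.sum_const, Finset.card_univ, nsmul_eq_mul]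
    apply mul_le_mul_of_nonneg_right hcard
    apply Finset.sum_nonneg
    intro s _
    have h4 : 0 ≤ Pool.Agent.H58P.ht (u s : Qb) := absLogHeight_nonneg _
    have h5 : 0 ≤ Pool.Agent.H58P.ht (v s : Qb) := absLogHeight_nonneg _
    have h6 : 0 ≤ Real.log 2 := Real.log_nonneg (by norm_num)
    linarith
  · intro W hW
    obtain ⟨ρ, hρ⟩ := hC p φ M hM hst W hW
    have hρ' : ∀ x ∈ M, ρ⁻¹ x ∈ M := fun x hx => hst ρ⁻¹ x hx
    let e : M ≃+* M :=
      { toFun := fun x => ⟨ρ x, hst ρ x x.2⟩
        invFun := fun x => ⟨ρ⁻¹ x, hρ' x x.2⟩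
        left_inv := fun x => Subtype.ext (AlgEquiv.symm_apply_apply ρ (x : Qb))
        right_inv := fun x => Subtype.ext (AlgEquiv.apply_symm_apply ρ (x : Qb))
        map_mul' := fun x y => Subtype.ext (map_mul ρ (x : Qb) y)
        map_add' := fun x y => Subtype.ext (map_add ρ (x : Qb) y) }
    let ρM : M ≃ₐ[ℚ] M := AlgEquiv.ofRingEquiv (f := e) (fun r => by
      have h1 : (algebraMap ℚ M r : M) = (r : M) := by simp
      rw [h1]
      exact map_ratCast e r)
    exact ⟨Equiv.mulLeft ρM, ρ, fun g s => rfl, fun g s => rfl, hρ⟩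

end Pool.Agent.W848.RK
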